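import Pool.Agent.Helper15.RK.GoalsF

/-! # Packet RK-A FRA2: the first step in the Kähler case -/

open Complex Metric Set Filter Topology MeasureTheory
open scoped ContDiff ComplexConjugate ComplexOrder Manifold Matrix

namespace Pool.Agent.Helper82.RK

open Pool.Agent.Helper95.Lin Pool.Agent.Helper16.Abund Pool.Agent.Helper92.Orb
  Pool.Agent.Helper10.SP Pool.Agent.Helper95.RK Pool.Agent.Helper15.RK

universe u

variable {n k : ℕ}

theorem cd_congr {f g : Cn n → ℂ} {x : Cn n} (h : f =ᶠ[𝓝 x] g) (l : Fin n) :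
    cd l f x = cd l g x := by
  unfold cd
  rw [h.fderiv_eq]

theorem cdb_congr {f g : Cn n → ℂ} {x : Cn n} (h : f =ᶠ[𝓝 x] g) (l : Fin n) :
    cdb l f x = cdb l g x := by
  unfold cdb
  rw [h.fderiv_eq]

theorem dv_congr {f g : Cn n → ℂ} {x : Cn n} (h : f =ᶠ[𝓝 x] g) (v : Cn n → Cn n) :
    Dv v f x = Dv v g x := by
  unfold Dv
  simp only [cd_congr h]

theorem dvb_congr {f g : Cn n → ℂ} {x : Cn n} (h : f =ᶠ[𝓝 x] g) (v : Cn n → Cn n) :
    Dvb v f x = Dvb v g x := by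
  unfold Dvb
  simp only [cdb_congr h]

theorem dd_congr {W : Set (Cn n)} (hO : IsOpen W) {f g : Cn n → ℂ} (h : ∀ y ∈ W, f y = g y)
    (v : Fin k → Cn n → Cn n) (α β : Fin k) {x : Cn n} (hx : x ∈ W) :
    DD v α β f x = DD v α β g x := by
  unfold DD
  refine dv_congr ?_ _
  filter_upwards [hO.mem_nhds hx] with y hy
  refine dvb_congr ?_ _
  filter_upwards [hO.mem_nhds hy] with z hz
  exact h z hz

theorem dvb_add (hWIRT : S_WIRT) {W : Set (Cn n)} (hO : IsOpen W) {f g : Cn n → ℂ}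
    (hf : ContDiffOn ℝ ∞ f W) (hg : ContDiffOn ℝ ∞ g W) (v : Cn n → Cn n) {x : Cn n}
    (hx : x ∈ W) : Dvb v (fun y => f y + g y) x = Dvb v f x + Dvb v g x := by
  unfold Dvb
  rw [← Finset.sum_add_distrib]
  refine Finset.sum_congr rfl fun j _ => ?_
  rw [((hWIRT W hO f g hf hg).2.1 j x hx).2]
  ring

theorem dv_add (hWIRT : S_WIRT) {W : Set (Cn n)} (hO : IsOpen W) {f g : Cn n → ℂ}
    (hf : ContDiffOn ℝ ∞ f W) (hg : ContDiffOn ℝ ∞ g W) (v : Cn n → Cn n) {x : Cn n}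
    (hx : x ∈ W) : Dv v (fun y => f y + g y) x = Dv v f x + Dv v g x := by
  unfold Dv
  rw [← Finset.sum_add_distrib]
  refine Finset.sum_congr rfl fun j _ => ?_
  rw [((hWIRT W hO f g hf hg).2.1 j x hx).1]
  ring

theorem smooth_dvb (hWIRT : S_WIRT) {W : Set (Cn n)} (hO : IsOpen W) {f : Cn n → ℂ}
    (hf : ContDiffOn ℝ ∞ f W) {v : Cn n → Cn n} (hv : ContDiffOn ℝ ∞ v W) :
    ContDiffOn ℝ ∞ (Dvb v f) W := by
  unfold Dvb
  refine ContDiffOn.sum fun j _ => ?_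
  refine ContDiffOn.mul ?_ (((hWIRT W hO f f hf hf).1 j).2)
  exact Complex.conjCLE.contDiff.comp_contDiffOn (contDiffOn_pi.mp hv j)

theorem dd_add (hWIRT : S_WIRT) {W : Set (Cn n)} (hO : IsOpen W) {f g : Cn n → ℂ}
    (hf : ContDiffOn ℝ ∞ f W) (hg : ContDiffOn ℝ ∞ g W) {v : Fin k → Cn n → Cn n}
    (hv : ∀ α, ContDiffOn ℝ ∞ (v α) W) (α β : Fin k) {x : Cn n} (hx : x ∈ W) :
    DD v α β (fun y => f y + g y) x = DD v α β f x + DD v α β g x := by
  unfold DD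
  rw [← dv_add hWIRT hO (smooth_dvb hWIRT hO hf (hv β)) (smooth_dvb hWIRT hO hg (hv β)) (v α) hx]
  refine dv_congr ?_ _
  filter_upwards [hO.mem_nhds hx] with y hy
  exact dvb_add hWIRT hO hf hg (v β) hy

theorem dd_const (v : Fin k → Cn n → Cn n) (α β : Fin k) (c : ℂ) (x : Cn n) :
    DD v α β (fun _ => c) x = 0 := by
  have h1 : Dvb (v β) (fun _ => c) = fun _ => 0 := by
    funext y
    unfold Dvb cdb
    simp
  unfold DD
  rw [h1]
  unfold Dv cd
  simp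

theorem star_dot (M : Matrix (Fin n) (Fin n) ℂ) (x : Cn n) :
    star x ⬝ᵥ (M *ᵥ x) = hermi M (star x) (star x) := by
  unfold hermi
  simp only [dotProduct, Matrix.mulVec, Finset.mul_sum]
  refine Finset.sum_congr rfl fun p _ => Finset.sum_congr rfl fun q _ => ?_
  simp only [Pi.star_apply, Complex.star_def, Complex.conj_conj]
  ring

theorem lm_psd (hLMF : S_LMF) {W : Set (Cn n)} (hO : IsOpen W) {Φ : Cn n → ℝ}
    (hΦ : ContDiffOn ℝ ∞ Φ W) (hp : ∀ x ∈ W, ∀ e, 0 ≤ lev Φ x e) {x : Cn n} (hx : x ∈ W) :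
    (LM Φ x).PosSemidef := by
  obtain ⟨-, h2, h3, -⟩ := hLMF W hO Φ hΦ
  refine Matrix.posSemidef_iff_dotProduct_mulVec.mpr ⟨h2 x hx, fun y => ?_⟩
  rw [star_dot, ← h3 x hx]
  exact_mod_cast hp x hx _

/-- The matrix `(tr (T_α T̄_β))`. -/
noncomputable def TT {b k : ℕ} (v : Fin k → Cn (b + k) → Cn (b + k)) (x : Cn (b + k)) :
    Matrix (Fin k) (Fin k) ℂ :=
  Matrix.of fun α β => Matrix.trace (Tm (v α) x * mc (Tm (v β) x))

theorem hermi_TT {b k : ℕ} (v : Fin k → Cn (b + k) → Cn (b + k)) (x : Cn (b + k)) (c : Cn k) :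
    hermi (TT v x) c c = Matrix.trace ((∑ α, c α • Tm (v α) x) * mc (∑ α, c α • Tm (v α) x)) := by
  have h1 : mc (∑ α, c α • Tm (v α) x) = ∑ β, conj (c β) • mc (Tm (v β) x) := by
    ext i j
    simp only [mc, Matrix.map_apply, Matrix.sum_apply, Matrix.smul_apply, smul_eq_mul, map_sum,
      map_mul]
  rw [h1, Finset.sum_mul_sum, Matrix.trace_sum]
  unfold hermi TT
  refine Finset.sum_congr rfl fun α _ => ?_
  rw [Matrix.trace_sum]
  refine Finset.sum_congr rfl fun β _ => ?_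
  rw [Matrix.smul_mul, Matrix.mul_smul, Matrix.trace_smul, Matrix.trace_smul]
  simp only [Matrix.of_apply, smul_eq_mul]
  ring

/-- The consequences of `LAK` for a kernel frame. -/
theorem lak_frame (hLMF : S_LMF) (hLAK : S_LAK) (hDERK : S_DERK) {b k : ℕ}
    {Φ : Cn (b + k) → ℝ} {W : Set (Cn (b + k))} {L : Cn (b + k) →ₗ[ℂ] Cn k}
    {w : Fin b → Cn (b + k)} {v : Fin k → Cn (b + k) → Cn (b + k)} (hK : KFr Φ W L w v)
    {x : Cn (b + k)} (hx : x ∈ W) (c : Cn k) :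
    (Matrix.trace ((∑ α, c α • Tm (v α) x) * mc (∑ α, c α • Tm (v α) x))).im = 0 ∧
    0 ≤ (Matrix.trace ((∑ α, c α • Tm (v α) x) * mc (∑ α, c α • Tm (v α) x))).re ∧
    (Matrix.trace ((∑ α, c α • Tm (v α) x) * mc (∑ α, c α • Tm (v α) x)) = 0 →
      ∑ α, c α • Tm (v α) x = 0) := by
  obtain ⟨h1, -, -, -, -, -, h7⟩ := hDERK hK x hx
  refine (hLAK (LM Φ x) L (fun α => v α x) (lm_psd hLMF hK.isOpen hK.smP hK.psd hx)
    (hK.norm x hx) (hK.ker x hx) ?_ (∑ α, c α • Tm (v α) x) ?_ ?_).2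
  · intro e he
    refine hK.only x hx e ?_
    have h2 := (hLMF W hK.isOpen Φ hK.smP).2.2.1 x hx e
    have h3 : hermi (LM Φ x) e e = 0 := by
      unfold hermi
      rw [Finset.sum_comm]
      refine Finset.sum_eq_zero fun j _ => ?_
      rw [← Finset.sum_mul, he j, zero_mul]
    rw [h3] at h2
    exact_mod_cast h2
  · intro l
    have h2 : (fun i => (∑ α, c α • Tm (v α) x) i l) =
        ∑ α, c α • (fun i => Tm (v α) x i l) := by
      funext i
      simp only [Matrix.sum_apply, Matrix.smul_apply, Finset.sum_apply, Pi.smul_apply]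
    rw [h2, map_sum]
    refine Finset.sum_eq_zero fun α _ => ?_
    rw [map_smul, (h7 α l).1, smul_zero]
  · unfold Matrix.IsSymm
    rw [Finset.mul_sum, Matrix.transpose_sum]
    refine Finset.sum_congr rfl fun α _ => ?_
    rw [Matrix.mul_smul, Matrix.transpose_smul]
    congr 1
    exact h1 α

/-- The leafwise Levi matrix of `u`. -/
theorem lf_eq (hWIRT : S_WIRT) (hKFB : S_KFB) (hLDM : S_LDM) (hLDG : S_LDG) {b k : ℕ}
    {Φ : Cn (b + k) → ℝ} {W : Set (Cn (b + k))} {L : Cn (b + k) →ₗ[ℂ] Cn k}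
    {w : Fin b → Cn (b + k)} {v : Fin k → Cn (b + k) → Cn (b + k)} (hK : KFr Φ W L w v)
    {g : Cn (b + k) → Matrix (Fin (b + k)) (Fin (b + k)) ℂ}
    (hg : ∀ i j, ContDiffOn ℝ ∞ (fun x => g x i j) W) (hgp : ∀ x ∈ W, (g x).PosDef)
    {f : Cn (b + k) → ℝ} (hf : ContDiffOn ℝ ∞ f W) (hfu : ∀ x ∈ W, f x = uf Φ g w v x)
    {x : Cn (b + k)} (hx : x ∈ W) (α β : Fin k) :
    LF v f x α β = TT v x α β - ∑ γ, ∑ δ, (gram g v x)⁻¹ δ γ * CRV g v x α β γ δ := by
  obtain ⟨h1, h2, h3, h4, -, h6⟩ := hKFB hK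
  obtain ⟨h7, h8⟩ := h6 g hg
  have h9 := h8 hgp
  obtain ⟨hm1, hm2⟩ := hLDM hK x hx α β
  have hm3 := (hLDG hK g hg hgp x hx α β).2.2
  have hO := hK.isOpen
  set c : ℝ := Real.log (‖(PM w fun α => v α x).det‖ ^ 2) with hc
  have hsm : ContDiffOn ℝ ∞ (fun y => ((Real.log (mdet Φ w y).re : ℝ) : ℂ)) W := by
    refine Complex.ofRealCLM.contDiff.comp_contDiffOn ?_
    refine ContDiffOn.log (Complex.reCLM.contDiff.comp_contDiffOn h2) ?_
    intro y hy
    exact (h1 y hy).2.ne'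
  have hdet : ContDiffOn ℝ ∞ (fun y => (gram g v y).det) W := by
    have : (fun y => (gram g v y).det) = fun y => ∑ σ : Equiv.Perm (Fin k),
        ((Equiv.Perm.sign σ : ℤ) : ℂ) * ∏ i, gram g v y (σ i) i := by
      funext y
      rw [Matrix.det_apply']
    rw [this]
    refine ContDiffOn.sum fun σ _ => ?_
    refine contDiffOn_const.mul ?_
    exact contDiffOn_prod fun i _ => h7 _ _
  have hsg : ContDiffOn ℝ ∞ (fun y => ((Real.log (gram g v y).det.re : ℝ) : ℂ)) W := by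
    refine Complex.ofRealCLM.contDiff.comp_contDiffOn ?_
    refine ContDiffOn.log (Complex.reCLM.contDiff.comp_contDiffOn hdet) ?_
    intro y hy
    exact (h9 y hy).2.2.ne'
  have hsf : ContDiffOn ℝ ∞ (fun y => ((f y : ℝ) : ℂ)) W :=
    Complex.ofRealCLM.contDiff.comp_contDiffOn hf
  have hsP : ContDiffOn ℝ ∞ (fun y => ((Φ y : ℝ) : ℂ)) W :=
    Complex.ofRealCLM.contDiff.comp_contDiffOn hK.smP
  have hsc : ContDiffOn ℝ ∞ (fun _ : Cn (b + k) => (c : ℂ)) W := contDiffOn_const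
  have heq : ∀ y ∈ W, (((f y : ℝ) : ℂ) + ((Φ y : ℝ) : ℂ)) + (c : ℂ) =
      ((Real.log (mdet Φ w y).re : ℝ) : ℂ) + ((Real.log (gram g v y).det.re : ℝ) : ℂ) := by
    intro y hy
    have e1 : f y + Φ y + c = Real.log (mdet Φ w y).re + Real.log (gram g v y).det.re := by
      rw [hfu y hy]
      unfold uf dens
      have hP : (‖(PM w fun α => v α y).det‖ ^ 2) = (‖(PM w fun α => v α x).det‖ ^ 2) := by
        rw [h4 y hy x hx]
      have hne : ‖(PM w fun α => v α x).det‖ ^ 2 ≠ 0 := by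
        have := h3 x hx
        positivity
      rw [hP, Real.log_div (mul_pos (h1 y hy).2 (h9 y hy).2.2).ne' hne,
        Real.log_mul (h1 y hy).2.ne' (h9 y hy).2.2.ne']
      rw [hc]
      ring
    exact_mod_cast e1
  have hdd := dd_congr hO heq v α β hx
  rw [dd_add hWIRT hO (hsf.add hsP) hsc hK.smv α β hx, dd_add hWIRT hO hsf hsP hK.smv α β hx,
    dd_const, dd_add hWIRT hO hsm hsg hK.smv α β hx, hm1, hm2, hm3] at hdd
  unfold LF TT
  rw [Matrix.of_apply, Matrix.of_apply]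
  linear_combination hdd

/-- The main computation in a frame. -/
theorem frame_main (hWIRT : S_WIRT) (hLMF : S_LMF) (hLAK : S_LAK) (hTRP : S_TRP)
    (hALGH : S_ALGH) (hKFB : S_KFB) (hDERK : S_DERK) (hLDM : S_LDM) (hLDG : S_LDG)
    (hCVK : S_CVK) (hEXG : S_EXG) {b k : ℕ}
    {Φ : Cn (b + k) → ℝ} {W : Set (Cn (b + k))} {L : Cn (b + k) →ₗ[ℂ] Cn k}
    {w : Fin b → Cn (b + k)} {v : Fin k → Cn (b + k) → Cn (b + k)} (hK : KFr Φ W L w v)
    {H : Cn (b + k) → Matrix (Fin (b + k)) (Fin (b + k)) ℂ}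
    (hg : ∀ i j, ContDiffOn ℝ ∞ (fun x => H x i j) W) (hgp : ∀ x ∈ W, (H x).PosDef)
    (hcl : ∀ x ∈ W, ∀ i j l, cd l (fun y => H y i j) x = cd i (fun y => H y l j) x)
    (hCv : CvH Φ H W)
    {f : Cn (b + k) → ℝ} (hf : ContDiffOn ℝ ∞ f W) (hfu : ∀ x ∈ W, f x = uf Φ H w v x)
    {x : Cn (b + k)} (hx : x ∈ W) :
    0 < dens Φ H w v x ∧ 0 ≤ (Matrix.trace ((gram H v x)⁻¹ * LF v f x)).re ∧
    ((Matrix.trace ((gram H v x)⁻¹ * LF v f x)).re = 0 → (∀ α, Tm (v α) x = 0) ∧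
      ∀ α β γ δ, CRV H v x α β γ δ = 0) := by
  have hO := hK.isOpen
  obtain ⟨h1, h2, h3, h4, -, h6⟩ := hKFB hK
  obtain ⟨h7, h8⟩ := h6 H hg
  have h9 := h8 hgp
  have hdens : 0 < dens Φ H w v x := by
    unfold dens
    have := h3 x hx
    exact div_pos (mul_pos (h1 x hx).2 (h9 x hx).2.2) (by positivity)
  have hG := (h9 x hx).1
  -- the torsion vanishes
  have hTRN : ∀ y ∈ W, ∀ α γ δ, TRN H v y α γ δ = 0 := by
    intro y hy α γ δ
    rw [(hEXG hK H hg y hy α γ).1 δ]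
    refine Finset.sum_eq_zero fun i _ => Finset.sum_eq_zero fun m _ =>
      Finset.sum_eq_zero fun l _ => ?_
    rw [hcl y hy m l i, sub_self, mul_zero]
  have hsym : ∀ y ∈ W, ∀ α γ δ, Dv (v α) (fun z => gram H v z γ δ) y =
      Dv (v γ) (fun z => gram H v z α δ) y := by
    intro y hy α γ δ
    have := hTRN y hy α γ δ
    unfold TRN at this
    exact sub_eq_zero.1 this
  have hcomm := (hDERK hK x hx).2.2.2.1
  have hA := hALGH (gram H v x) (fun α γ δ => Dv (v α) (fun y => gram H v y γ δ) x)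
    (fun α β γ δ => DD v α β (fun y => gram H v y γ δ) x)
    (fun α β γ δ => CRV H v x α β γ δ) hG
    (fun α β γ δ => (hLDG hK H hg hgp x hx α β).2.1 γ δ)
    (fun α γ δ => hsym x hx α γ δ)
    (by
      intro α β γ δ
      unfold DD
      rw [(hcomm _ (h7 γ δ) α β).1, (hcomm _ (h7 α δ) γ β).1]
      refine dvb_congr ?_ _
      filter_upwards [hO.mem_nhds hx] with y hy
      exact hsym y hy α γ δ)
    (by
      intro α β γ δ
      unfold CRV
      congr 1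
      refine Finset.sum_congr rfl fun p _ => Finset.sum_congr rfl fun q _ => ?_
      rw [(hLDG hK H hg hgp x hx α β).1 p δ])
    (by
      intro s a
      have := (hCVK hK H hg hgp).2 hCv x hx s a
      unfold Qcv at this
      have e1 : (∑ β, ∑ γ, ∑ δ, conj (s β) * a γ * conj (s δ) *
          Dvb (v β) (fun y => gram H v y γ δ) x) =
          ∑ β, ∑ γ, ∑ δ, conj (s β) * a γ * conj (s δ) *
          conj (Dv (v β) (fun y => gram H v y δ γ) x) := by
        refine Finset.sum_congr rfl fun β _ => Finset.sum_congr rfl fun γ _ =>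
          Finset.sum_congr rfl fun δ _ => ?_
        rw [(hLDG hK H hg hgp x hx β β).1 γ δ]
      rw [e1] at this
      exact this)
  obtain ⟨-, hS2, hS3⟩ := hA
  obtain ⟨hT1, hT2, hT3⟩ := hTRP (gram H v x) (TT v x) hG (by
    intro c
    rw [hermi_TT]
    have := lak_frame hLMF hLAK hDERK hK hx c
    exact ⟨this.1, this.2.1⟩)
  have htr : Matrix.trace ((gram H v x)⁻¹ * LF v f x) =
      Matrix.trace ((gram H v x)⁻¹ * TT v x) -
      ∑ α, ∑ β, ∑ γ, ∑ δ, (gram H v x)⁻¹ β α * (gram H v x)⁻¹ δ γ * CRV H v x α β γ δ := by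
    simp only [Matrix.trace, Matrix.diag_apply, Matrix.mul_apply]
    rw [Finset.sum_comm (f := fun α β => ∑ γ, ∑ δ, (gram H v x)⁻¹ β α * (gram H v x)⁻¹ δ γ *
      CRV H v x α β γ δ), ← Finset.sum_sub_distrib]
    refine Finset.sum_congr rfl fun β _ => ?_
    rw [← Finset.sum_sub_distrib]
    refine Finset.sum_congr rfl fun α _ => ?_
    rw [lf_eq hWIRT hKFB hLDM hLDG hK hg hgp hf hfu hx α β, mul_sub, Finset.mul_sum]
    congr 1
    refine Finset.sum_congr rfl fun γ _ => ?_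
    rw [Finset.mul_sum]
    refine Finset.sum_congr rfl fun δ _ => ?_
    ring
  rw [htr, Complex.sub_re]
  refine ⟨hdens, by linarith, fun h0 => ?_⟩
  have e1 : (Matrix.trace ((gram H v x)⁻¹ * TT v x)).re = 0 := by linarith
  have e2 : (∑ α, ∑ β, ∑ γ, ∑ δ, (gram H v x)⁻¹ β α * (gram H v x)⁻¹ δ γ *
    CRV H v x α β γ δ).re = 0 := by linarith
  refine ⟨fun α => ?_, hS3 e2⟩
  have h10 := hT3 e1
  have h11 := (lak_frame hLMF hLAK hDERK hK hx (Pi.single α 1)).2.2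
  have h12 : ∑ γ, (Pi.single α 1 : Cn k) γ • Tm (v γ) x = Tm (v α) x := by
    rw [Finset.sum_eq_single α]
    · rw [Pi.single_eq_same, one_smul]
    · intro γ _ hγ
      rw [Pi.single_eq_of_ne hγ, zero_smul]
    · intro h; exact absurd (Finset.mem_univ _) h
  rw [h12] at h11
  refine h11 ?_
  have h13 : TT v x α α = 0 := by rw [h10]; rfl
  exact h13

/-- **Packet FRA2.** -/
theorem fra2 (hWIRT : S_WIRT) (hLMF : S_LMF) (hLAK : S_LAK) (hTRP : S_TRP) (hALGH : S_ALGH)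
    (hKFE : S_KFE) (hKFB : S_KFB) (hDERK : S_DERK) (hLDM : S_LDM) (hLDG : S_LDG) (hCVK : S_CVK)
    (hEXG : S_EXG) (hPUE : S_PUE.{u}) (hST1 : S_ST1.{u}) (hPOSK : S_POSK.{u})
    (hUGL : S_UGL.{u}) : S_FRA2.{u} := by
  intro b k T G _ R H Φ hF hC
  obtain ⟨κ, hκ⟩ := hPUE T R hF.ket.et
  obtain ⟨f, hf, hfu⟩ := hUGL hF
  obtain ⟨F, hDz, hF2⟩ := hST1 hF κ hκ f hf
  have hTo := hF.ket.et.isOpen
  have main : ∀ (W : Set (Cn (b + k))) (L : Cn (b + k) →ₗ[ℂ] Cn k) (w : Fin b → Cn (b + k))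
      (v : Fin k → Cn (b + k) → Cn (b + k)), KFr Φ W L w v → W ⊆ T → ∀ x ∈ W,
      0 < dens Φ H w v x ∧ 0 ≤ (Matrix.trace ((gram H v x)⁻¹ * LF v f x)).re ∧
      ((Matrix.trace ((gram H v x)⁻¹ * LF v f x)).re = 0 → (∀ α, Tm (v α) x = 0) ∧
        ∀ α β γ δ, CRV H v x α β γ δ = 0) := by
    intro W L w v hK hWT x hx
    exact frame_main hWIRT hLMF hLAK hTRP hALGH hKFB hDERK hLDM hLDG hCVK hEXG hK
      (fun i j => (hF.ket.smooth i j).mono hWT) (fun x hx => hF.ket.posDef x (hWT hx))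
      (fun x hx => hF.ket.closed x (hWT hx))
      (fun σ hσ x hx h => hC σ hσ x (hWT hx) h) (hf.1.mono hWT) (hfu W L w v hK hWT) hx
  have hpos : ∀ x ∈ T, 0 ≤ F x := by
    intro x hx
    obtain ⟨W, L, w, v, hWT, hxW, hK⟩ := hKFE T hTo Φ hF.smP hF.rank x hx
    obtain ⟨h1, h2, -⟩ := main W L w v hK hWT x hxW
    rw [hF2 W L w v hK hWT x hxW]
    exact mul_nonneg h1.le h2
  have hz := hPOSK hF.ket.et κ hκ F hDz hpos
  intro W L w v hK hWT x hx
  obtain ⟨h1, -, h3⟩ := main W L w v hK hWT x hx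
  refine h3 ?_
  have h4 := hF2 W L w v hK hWT x hx
  rw [hz x (hWT hx)] at h4
  rcases mul_eq_zero.1 h4.symm with h5 | h5
  · exact absurd h5 h1.ne'
  · exact h5

end Pool.Agent.Helper82.RK
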